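import Mathlib
import Pool.Agent.P8H70.WD.Fin
import Pool.Agent.P8H70.WD.Full2

/-!
# The boundaries of wandering domains of `f₀` have finite length

Let the integer `n` be contained in a wandering domain of the entire function `f₀`. All Fatou components
of `f₀` which are mapped to this domain by an iterate of `f₀` are bounded and have no holes, and their
boundaries have finite length. The components may contain critical points, and critical points may lie
on their boundaries.

The components of `T^k n` are Jordan domains with boundaries of class `C¹` for large `k`, and the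
boundary of a component which is mapped to one of them by `f₀^j` is contained in the preimage of a
curve of class `C¹` under the entire function `f₀^j`. Such preimages have locally finite length, also
near the critical points (`Pool.Agent.P8H70.WD.len_local`).
-/

set_option autoImplicit false

open Filter Topology Metric Set MeasureTheory

namespace Pool.Agent.Results.MP_071ec9_an.FiniteLength

open Pool.Agent.H384R2.Fatou

/-- The entire function of Letherman, Schleicher and Wood; `f₀ n` is the value of the `3x+1` function
for every integer `n`. -/
noncomputable def f₀ (z : ℂ) : ℂ :=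
  z / 2 + (z + 1 / 2) * ((1 - Complex.cos (Real.pi * z)) / 2) +
    1 / Real.pi * (1 / 2 - Complex.cos (Real.pi * z)) * Complex.sin (Real.pi * z)

/-- Let the Fatou component of the integer `n` be a wandering domain of `f₀`, and let `z` be a point of
the Fatou set such that `f₀^k z` is in the component of `n`, for some `k ≥ 0`. Then the Fatou component
`V` of `z` (for example the component of `n` itself) is bounded; it has no holes: a bounded open set
whose boundary is contained in `V` is contained in `V`; and the boundary of `V` has positive and finite
length, that is, `1`-dimensional Hausdorff measure. In particular this boundary has the Hausdorff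
dimension `1`. -/
theorem result (n : ℤ) (hn : IsWanderingDomain f₀ (FatouComponent f₀ (n : ℂ))) (z : ℂ)
    (hz : z ∈ FatouSet f₀) (k : ℕ) (hk : f₀^[k] z ∈ FatouComponent f₀ (n : ℂ)) :
    Bornology.IsBounded (FatouComponent f₀ z) ∧
    (∀ W : Set ℂ, IsOpen W → Bornology.IsBounded W → frontier W ⊆ FatouComponent f₀ z →
      W ⊆ FatouComponent f₀ z) ∧
    0 < Measure.hausdorffMeasure 1 (frontier (FatouComponent f₀ z)) ∧
    Measure.hausdorffMeasure 1 (frontier (FatouComponent f₀ z)) < ⊤ := by
  obtain ⟨C, C0, hC0, key⟩ := Pool.Agent.P8H70.WD.exists_GT
  have hw : Pool.Agent.H723R2.LSW.Wild n := (Pool.Agent.H723R2.LSW.wandering_iff n).1 hn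
  obtain ⟨K, hK⟩ := Pool.Agent.P8H70.WD.eventually_tail hw C0
  obtain ⟨hG, -⟩ := key _ C0 (Pool.Agent.H723R2.LSW.wild_iter hw K) le_rfl hK
  have hz2 : f₀^[K + k] z ∈ Pool.Agent.P8H70.WD.U (Pool.Agent.H723R2.LSW.T^[K] n) := by
    rw [Function.iterate_add_apply]
    exact Pool.Agent.Y282.WD.f₀_iter_mem n K hk
  obtain ⟨h1, h2, h3⟩ := Pool.Agent.P8H70.WD.len_frontier hG hz hz2
  exact ⟨h1, fun W hWo hWb hWf => Pool.Agent.P8H70.WD.full' hw hz hk hWo hWb hWf, h2, h3⟩

end Pool.Agent.Results.MP_071ec9_an.FiniteLength
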