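import Mathlib
import Pool.Agent.P8H70.SR.FinB
import Pool.Agent.P8H57.SR.Hfl
import Pool.Agent.P8H4.SR.Hb1
import Pool.Agent.P8H4.SR.Lg
import Pool.Agent.P8H86.SR.Hb2
import Pool.Agent.P8H86.SR.Chn
import Pool.Agent.P8H38.SR.Div

/-!
# The boundary regularity of a wandering domain of `f₀` is the growth of the trajectory

If the component `U n` of the integer `n` is a wandering domain of the entire function `f₀`, then the
boundaries of the components of `xₖ = T^k n` are curves of class `C¹`, for all large `k`. Here the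
exact regularity of these curves is determined, in the scale of the classes `C^(m+1,α)`: for all
`m ≥ 0` and `0 < α < 1` the derivative of order `m + 1` of the Riemann map of the disc onto `U xₖ` is
`α`-Hölder continuous if and only if the trajectory satisfies `|T^j n| ≥ c 2^((m + α) j / 2)` for all
`j`; and it is the same near every point of the circle. So one can read the growth of the whole
trajectory off every small piece of the boundary of one domain. By the elementary inequality
`|T^j n| ≤ (|n| + 1) (3/2)^j` this never holds if `2^((m + α) / 2) > 3/2`; in particular no arc of the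
boundaries is of class `C³`.

The main point is that the Taylor coefficients with the indices `2^j` of the logarithmic derivative
`ζ φ'(ζ) / (φ(ζ) - xₖ)` are bounded above and below by constants times `1 / |xₖ₊ⱼ|²`
(`Pool.Agent.P8H70.SR.main_const`), which is proved with a norm on power series whose weights are
exponentials of the sums of the binary digits of the exponents, and an exact computation of the main
terms, which involve `π² / 12`.

Authors of the parts: helper70, helper4 (infinite products, from local to global), helper38 (division,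
compositions), helper45 (infinite products, the induction), helper53 (digit sums, Taylor
coefficients), helper57 (the local version), helper71 (coefficients of compositions, the weighted
norm), helper79 (the first coefficients, decay of coefficients), helper86 (derivatives of the
products).

The proof uses the theorem of Letherman, Schleicher and Wood in the form
`Pool.Agent.H723R2.LSW.wandering_iff`, and the theorem on the shape of the domains
`Pool.Agent.Y282.WD.shape`, of the starting library.
-/

set_option autoImplicit false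

open Filter Topology Metric Set

namespace Pool.Agent.Results.MP_071ec9_an.SharpRegularity

open Pool.Agent.H384R2.Fatou

/-- The entire function of Letherman, Schleicher and Wood; `f₀ n = T n` for every integer `n`. -/
noncomputable def f₀ (z : ℂ) : ℂ :=
  z / 2 + (z + 1 / 2) * ((1 - Complex.cos (Real.pi * z)) / 2) +
    1 / Real.pi * (1 / 2 - Complex.cos (Real.pi * z)) * Complex.sin (Real.pi * z)

/-- The `3x+1` function. -/
def T (n : ℤ) : ℤ := if n % 2 = 0 then n / 2 else (3 * n + 1) / 2

/-- The Fatou component of `f₀` which contains the integer `n`. -/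
def U (n : ℤ) : Set ℂ := FatouComponent f₀ (n : ℂ)

/-- `f` is Hölder continuous on `S` with the exponent `α`. -/
def HolderOn (α : ℝ) (f : ℂ → ℂ) (S : Set ℂ) : Prop :=
  ∃ H : ℝ, ∀ z ∈ S, ∀ w ∈ S, ‖f z - f w‖ ≤ H * ‖z - w‖ ^ α

/-- growth of a tail of the trajectory -/
theorem shift_growth {n : ℤ} (hw : Pool.Agent.H723R2.LSW.Wild n) (k : ℕ) {α : ℝ} (hα : 0 < α) :
    (∃ c : ℝ, 0 < c ∧ ∀ j : ℕ, c * (2 : ℝ) ^ (α * j / 2) ≤ |((T^[j] (T^[k] n) : ℤ) : ℝ)|) ↔
      ∃ c : ℝ, 0 < c ∧ ∀ j : ℕ, c * (2 : ℝ) ^ (α * j / 2) ≤ |((T^[j] n : ℤ) : ℝ)| := by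
  have h1 : ∀ j : ℕ, 1 ≤ |((T^[j] n : ℤ) : ℝ)| := by
    intro j
    have hne : T^[j] n ≠ 0 := by
      intro h0
      have h2 : T^[j + 1] n = T^[j] n := by
        rw [Function.iterate_succ_apply', h0]; rfl
      have := hw (j + 1) j h2
      omega
    have h3 : 1 ≤ |T^[j] n| := Int.one_le_abs hne
    exact_mod_cast h3
  constructor
  · rintro ⟨c, hc, h⟩
    refine ⟨min c 1 * (2 : ℝ) ^ (-(α * k / 2)), by positivity, fun j => ?_⟩
    rw [mul_assoc, ← Real.rpow_add (by norm_num)]
    rcases le_or_gt k j with hkj | hkj
    · obtain ⟨i, rfl⟩ := Nat.exists_eq_add_of_le hkj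
      have h2 := h i
      rw [← Function.iterate_add_apply, add_comm i k] at h2
      refine le_trans ?_ h2
      have e : -(α * k / 2) + α * ((k + i : ℕ) : ℝ) / 2 = α * i / 2 := by push_cast; ring
      rw [e]
      gcongr
      exact min_le_left _ _
    · refine le_trans ?_ (h1 j)
      have h3 : (2 : ℝ) ^ (-(α * k / 2) + α * j / 2) ≤ 1 := by
        apply Real.rpow_le_one_of_one_le_of_nonpos (by norm_num)
        have : (j : ℝ) ≤ k := by exact_mod_cast hkj.le
        nlinarith
      calc min c 1 * (2 : ℝ) ^ (-(α * k / 2) + α * j / 2) ≤ 1 * 1 := by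
            gcongr
            exact min_le_right _ _
        _ = 1 := one_mul 1
  · rintro ⟨c, hc, h⟩
    refine ⟨c, hc, fun j => ?_⟩
    rw [← Function.iterate_add_apply]
    refine le_trans ?_ (h (j + k))
    have e : α * ((j + k : ℕ) : ℝ) / 2 = α * j / 2 + α * k / 2 := by push_cast; ring
    have h4 : (2 : ℝ) ^ (α * j / 2) ≤ (2 : ℝ) ^ (α * ((j + k : ℕ) : ℝ) / 2) := by
      rw [e]
      apply Real.rpow_le_rpow_of_exponent_le (by norm_num)
      have : 0 ≤ α * k / 2 := by positivity
      linarith
    gcongr

/-- There is a constant `C` such that the following holds for all integers `n` whose Fatou component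
`U n` is a wandering domain of `f₀`, with `xₖ = T^k n`. `|xₖ| → ∞`. Let `|xⱼ| ≥ C` for all `j ≥ k` (so
`k` can be every large number), let `φ` be a conformal map of the open unit disc onto `U xₖ` with
`φ 0 = xₖ`, and let `m ≥ 0` and `0 < α < 1`. Then the following are equivalent:

* the derivative of `φ` of the order `m + 1` is `α`-Hölder continuous on the disc;
* the derivative of `φ` of the order `m + 1` is `α`-Hölder continuous on the intersection of the disc
  with some open set which contains a point of the unit circle;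
* there is `c > 0` with `|T^j n| ≥ c * 2^((m + α) j / 2)` for all `j ≥ 0`. -/
theorem result : ∃ C : ℝ, ∀ n : ℤ, IsWanderingDomain f₀ (U n) →
    Tendsto (fun k : ℕ => |T^[k] n|) atTop atTop ∧
    ∀ k : ℕ, (∀ j : ℕ, k ≤ j → C ≤ |((T^[j] n : ℤ) : ℝ)|) →
      ∀ φ : ℂ → ℂ, DifferentiableOn ℂ φ (ball 0 1) → InjOn φ (ball 0 1) →
        φ '' ball 0 1 = U (T^[k] n) → φ 0 = (T^[k] n : ℤ) → ∀ (m : ℕ) (α : ℝ), 0 < α → α < 1 →
          List.TFAE [
            HolderOn α (iteratedDeriv (m + 1) φ) (ball 0 1),
            ∃ W : Set ℂ, IsOpen W ∧ (W ∩ sphere (0 : ℂ) 1).Nonempty ∧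
              HolderOn α (iteratedDeriv (m + 1) φ) (ball 0 1 ∩ W),
            ∃ c : ℝ, 0 < c ∧
              ∀ j : ℕ, c * (2 : ℝ) ^ ((m + α) * j / 2) ≤ |((T^[j] n : ℤ) : ℝ)|] := by
  obtain ⟨C, hC, key⟩ := Pool.Agent.P8H70.SR.finalB
    (Pool.Agent.P8H57.SR.hfl Pool.Agent.P8H70.SR.hco) Pool.Agent.P8H4.SR.lg
    (Pool.Agent.P8H38.SR.up Pool.Agent.P8H38.SR.div) Pool.Agent.P8H38.SR.cmp
    Pool.Agent.P8H86.SR.chn Pool.Agent.P8H86.SR.down Pool.Agent.P8H4.SR.hb1
    Pool.Agent.P8H86.SR.hb2 Pool.Agent.P8H38.SR.div
  refine ⟨C, fun n hn => ?_⟩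
  have hw : Pool.Agent.H723R2.LSW.Wild n := (Pool.Agent.H723R2.LSW.wandering_iff n).1 hn
  refine ⟨?_, fun k hk φ hd hi him h0 m α ha0 ha1 => ?_⟩
  · have h := Pool.Agent.H723R2.LSW.wild_tendsto hw
    rw [Filter.tendsto_atTop] at h ⊢
    intro b
    filter_upwards [h b] with j hj
    exact_mod_cast hj
  · have hj' : ∀ j : ℕ, C ≤ |((T^[j] (T^[k] n) : ℤ) : ℝ)| := by
      intro j
      rw [← Function.iterate_add_apply]
      exact hk (j + k) (by omega)
    have h := key (T^[k] n) (Pool.Agent.H723R2.LSW.wild_iter hw k) hj' φ hd hi him h0 m α ha0 ha1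
    have h3 := shift_growth hw k (by positivity : (0 : ℝ) < m + α)
    tfae_have 1 ↔ 2 := h.out 0 1
    tfae_have 1 ↔ 3 := (h.out 0 2).trans h3
    tfae_finish

end Pool.Agent.Results.MP_071ec9_an.SharpRegularity
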