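import Mathlib
import Pool.Agent.P8H70.WD.Fin

/-!
# The boundaries of the wandering domains of `f₀` which contain integers are smooth curves

If the component `U n` of the integer `n` is a wandering domain of the entire function `f₀`, then the
components of `T^k n` are, for all large `k`, Jordan domains whose boundaries are curves of class `C¹`.
In fact the Riemann map of the disc is continuously differentiable on the closed disc, its derivative
is almost constant, and these maps conjugate `f₀` to `z ↦ ± z²`.

The reason is that the integers `T^j n` are pairwise different, so that `∑ 1 / (T^j n)²` converges.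

The proof uses the theorem of Letherman, Schleicher and Wood in the form
`Pool.Agent.H723R2.LSW.wandering_iff`, and the theorem on the shape of the domains
`Pool.Agent.Y282.WD.shape`, of the starting library.
-/

set_option autoImplicit false

open Filter Topology Metric Set

namespace Pool.Agent.Results.MP_071ec9_an.SmoothBoundaries

open Pool.Agent.H384R2.Fatou

/-- The entire function of Letherman, Schleicher and Wood; `f₀ n = T n` for every integer `n`. -/
noncomputable def f₀ (z : ℂ) : ℂ :=
  z / 2 + (z + 1 / 2) * ((1 - Complex.cos (Real.pi * z)) / 2) +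
    1 / Real.pi * (1 / 2 - Complex.cos (Real.pi * z)) * Complex.sin (Real.pi * z)

/-- The `3x+1` function. -/
def T (n : ℤ) : ℤ := if n % 2 = 0 then n / 2 else (3 * n + 1) / 2

/-- The Fatou component of `f₀` which contains the integer `n`. -/
def U (n : ℤ) : Set ℂ := FatouComponent f₀ (n : ℂ)

/-- The radius `ρ(n) = exp (- ∑_{i ≥ 0} 2^{-(i+1)} log (π²/4 · |T^i n + 1/2|))`. -/
noncomputable def radius (n : ℤ) : ℝ :=
  Real.exp (-∑' i : ℕ, Real.log (Real.pi ^ 2 / 4 * |((T^[i] n : ℤ) : ℝ) + 1 / 2|) / 2 ^ (i + 1))

/-- The sign of `(-1)^n (n + 1/2)`, which is the sign of the second derivative of `f₀` at `n`. -/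
noncomputable def sgn (n : ℤ) : ℂ := if (0 ≤ n ↔ n % 2 = 0) then 1 else -1

/-- `φ` is a smooth parametrisation of the closure of the component of `m` by the closed unit disc:
it is injective and continuously differentiable on the closed disc (in the complex sense, with the
derivative `φ'`, so it is holomorphic in the open disc), it maps `0` to `m`, the open disc onto the
component and the circle onto its boundary, and its derivative is nowhere zero and differs from the
constant `radius m` by at most `ε * radius m`. -/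
structure SmoothParam (m : ℤ) (φ φ' : ℂ → ℂ) (ε : ℝ) : Prop where
  center : φ 0 = m
  inj : InjOn φ (closedBall 0 1)
  disc : φ '' ball 0 1 = U m
  circle : φ '' sphere 0 1 = frontier (U m)
  deriv : ∀ z ∈ closedBall (0 : ℂ) 1, HasDerivWithinAt φ (φ' z) (closedBall 0 1) z
  cont : ContinuousOn φ' (closedBall 0 1)
  ne : ∀ z ∈ closedBall (0 : ℂ) 1, φ' z ≠ 0
  near : ∀ z ∈ closedBall (0 : ℂ) 1, ‖φ' z - radius m‖ ≤ ε * radius m

/-- There are a constant `C` and maps `φ m` (for the integers `m`) such that the following holds for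
all integers `n` whose Fatou component `U n` is a wandering domain of `f₀`, with `xₖ = T^k n = f₀^k n`.

`|xₖ| → ∞`; and if `|xⱼ| ≥ M ≥ C` for all `j ≥ k` (so for all large `k`), then `φ xₖ` is a smooth
parametrisation of the closure of `U xₖ`, with a derivative which differs from the number `radius xₖ`
by at most `(C / M) * radius xₖ`, and `f₀ (φ xₖ z) = φ xₖ₊₁ (± z²)` for all `z` in the closed disc. In
particular the boundary of `U xₖ` is a Jordan curve of class `C¹`. -/
theorem result : ∃ (C : ℝ) (φ φ' : ℤ → ℂ → ℂ), ∀ n : ℤ, IsWanderingDomain f₀ (U n) →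
    Tendsto (fun k : ℕ => |T^[k] n|) atTop atTop ∧
    ∀ (k : ℕ) (M : ℝ), C ≤ M → (∀ j : ℕ, k ≤ j → M ≤ |((T^[j] n : ℤ) : ℝ)|) →
      SmoothParam (T^[k] n) (φ (T^[k] n)) (φ' (T^[k] n)) (C / M) ∧
      ∀ z ∈ closedBall (0 : ℂ) 1,
        f₀ (φ (T^[k] n) z) = φ (T^[k + 1] n) (sgn (T^[k] n) * z ^ 2) := by
  obtain ⟨C, C0, hC0, key⟩ := Pool.Agent.P8H70.WD.exists_GT
  refine ⟨C0, Pool.Agent.P8H70.WD.ph, Pool.Agent.P8H70.WD.ph', fun n hn => ?_⟩
  have hw : Pool.Agent.H723R2.LSW.Wild n := (Pool.Agent.H723R2.LSW.wandering_iff n).1 hn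
  refine ⟨?_, fun k M hM hj => ?_⟩
  · have h := Pool.Agent.H723R2.LSW.wild_tendsto hw
    rw [Filter.tendsto_atTop] at h ⊢
    intro b
    filter_upwards [h b] with j hj
    exact_mod_cast hj
  · have hj' : ∀ j : ℕ, M ≤ |((T^[j] (T^[k] n) : ℤ) : ℝ)| := by
      intro j
      rw [← Function.iterate_add_apply]
      exact hj (j + k) (by omega)
    obtain ⟨hG, hA⟩ := key (T^[k] n) M (Pool.Agent.H723R2.LSW.wild_iter hw k) hM hj'
    refine ⟨⟨Pool.Agent.P8H70.WD.ph_zero hG, Pool.Agent.P8H70.WD.ph_inj hG,
      Pool.Agent.P8H70.WD.ph_ball hG, Pool.Agent.P8H70.WD.ph_sphere hG,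
      fun z hz => Pool.Agent.P8H70.WD.ph_deriv hG hz, Pool.Agent.P8H70.WD.ph'_cont hG,
      fun z hz => inv_ne_zero (Pool.Agent.P8H70.WD.D_ne hG (Pool.Agent.P8H70.WD.ph_mem hG hz)),
      fun z hz => ?_⟩, fun z hz => ?_⟩
    · have h1 := Pool.Agent.P8H70.WD.ph'_near hG hz
      refine h1.trans ?_
      have := Pool.Agent.P8H70.WD.rho_pos (T^[k] n)
      exact mul_le_mul_of_nonneg_right hA this.le
    · rw [Function.iterate_succ_apply']
      exact Pool.Agent.P8H70.WD.ph_eq hG hz

end Pool.Agent.Results.MP_071ec9_an.SmoothBoundaries
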