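import Pool.Agent.P8H74.SM.Fin

set_option autoImplicit false

/-! Counting with smooth weights the integers in wandering domains of the entire `3x+1`
interpolation `f₀`, and the integers of any set which is completely invariant under `f₀`, in residue
classes: error terms smaller than every power of the logarithm. -/

open Filter Topology Metric Set MeasureTheory

namespace Pool.Agent.Results.MP_071ec9_an.SmoothCounts

open Pool.Agent.H384R2.Fatou

/-- The entire function of Letherman, Schleicher and Wood; `f₀ n = T n` for every integer `n`, where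
`T` is the `3x+1` function. -/
noncomputable def f₀ (z : ℂ) : ℂ :=
  z / 2 + (z + 1 / 2) * ((1 - Complex.cos (Real.pi * z)) / 2) +
    1 / Real.pi * (1 / 2 - Complex.cos (Real.pi * z)) * Complex.sin (Real.pi * z)

/-- The integers whose Fatou component is a wandering domain of `f₀`. -/
def WanderingIntegers : Set ℤ := {n | IsWanderingDomain f₀ (FatouComponent f₀ n)}

/-- The set `S` of integers is completely invariant under `f₀` among the integers of sign `s`. -/
def Invariant (s : ℤ) (S : Set ℤ) : Prop :=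
  ∀ n m : ℤ, 0 < s * n → f₀ (n : ℂ) = m → (n ∈ S ↔ m ∈ S)

/-- Among the integers of sign `s` the set `S` has natural density `δ`. -/
def HasDensity (s : ℤ) (S : Set ℤ) (δ : ℝ) : Prop :=
  Tendsto (fun X : ℝ => ({n : ℤ | 0 < s * n ∧ ((s * n : ℤ) : ℝ) ≤ X ∧ n ∈ S}.ncard : ℝ) / X)
    atTop (𝓝 δ)

/-- The sum of `φ (s n / X)` over the integers `n ∈ S` with `s n > 0` and `n ≡ c` mod `q`. -/
noncomputable def smoothCount (φ : ℝ → ℝ) (s : ℤ) (S : Set ℤ) (q c : ℤ) (X : ℝ) : ℝ :=
  ∑' n : {n : ℤ // 0 < s * n ∧ n ∈ S ∧ q ∣ n - c}, φ (((s * n : ℤ) : ℝ) / X)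

/-- Let `s = 1` or `s = -1`, let `φ : ℝ → ℝ` be smooth of compact support, and let `B` be a natural
number. There is a constant `C` such that every set `S` of integers that is completely invariant under
`f₀` among the integers of sign `s` (one of them is the set of the integers in wandering domains)
has a natural density `δ` among them, which is `0` only if `S` contains no integer of sign `s`, and for
all real `X ≥ 2`, all `j, m` with `12 (j + m)² ≤ log X` and all `c`, the sum of `φ (|n| / X)` over the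
`n ∈ S` of sign `s` with `n ≡ c` mod `2^j 3^m` is `δ (X / (2^j 3^m)) ∫_0^∞ φ` with an error of at most
`C (X / (2^j 3^m)) / (log X)^B`. -/
theorem result (s : ℤ) (hs : s = 1 ∨ s = -1) (φ : ℝ → ℝ) (hφ : ContDiff ℝ (⊤ : ℕ∞) φ)
    (hc : HasCompactSupport φ) (B : ℕ) :
    Invariant s WanderingIntegers ∧ ∃ C : ℝ, 0 < C ∧ ∀ S : Set ℤ, Invariant s S →
      ∃ δ : ℝ, HasDensity s S δ ∧ 0 ≤ δ ∧ δ ≤ 1 ∧ (δ = 0 ↔ ∀ n : ℤ, 0 < s * n → n ∉ S) ∧
        ∀ X : ℝ, 2 ≤ X → ∀ j m : ℕ, 12 * ((j : ℝ) + m) ^ 2 ≤ Real.log X → ∀ c : ℤ,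
          |smoothCount φ s S (2 ^ j * 3 ^ m) c X -
              δ * (X / (2 ^ j * 3 ^ m)) * ∫ x in Set.Ioi 0, φ x|
            ≤ C * (X / (2 ^ j * 3 ^ m)) / (Real.log X) ^ B := by
  obtain ⟨C0, hC0, h0⟩ := Pool.Agent.TH237.RT.int_rate
  have hT : ∀ n : ℤ, Pool.Agent.H723R2.LSW.T n = Pool.Agent.H499R2.ND.Td 1 n := fun n => rfl
  have hf : ∀ n m : ℤ, f₀ (n : ℂ) = m ↔ Pool.Agent.H499R2.ND.Td 1 n = m := by
    intro n m
    have h1 : f₀ (n : ℂ) = (Pool.Agent.H723R2.LSW.T n : ℂ) := Pool.Agent.H723R2.LSW.f₀_int n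
    rw [h1, ← hT]
    exact_mod_cast Iff.rfl
  have hW : ∀ n : ℤ, n ∈ WanderingIntegers ↔ Pool.Agent.H723R2.LSW.Wild n :=
    fun n => Pool.Agent.H723R2.LSW.wandering_iff n
  have hwild : ∀ n : ℤ, Pool.Agent.H723R2.LSW.Wild n ↔
      Pool.Agent.H723R2.LSW.Wild (Pool.Agent.H723R2.LSW.T n) := by
    intro n
    constructor
    · intro hn i j hij
      have := hn (i + 1) (j + 1) (by
        rw [Function.iterate_succ_apply, Function.iterate_succ_apply]; exact hij)
      omega
    · intro hn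
      by_contra hcon
      obtain ⟨k, p, a, hp, ha, hk⟩ := Pool.Agent.H723R2.LSW.tame_hits hcon
      have h1 : Pool.Agent.H723R2.LSW.T^[k] (Pool.Agent.H723R2.LSW.T n) =
          Pool.Agent.H723R2.LSW.T a := by
        rw [← Function.iterate_succ_apply, Function.iterate_succ_apply', hk]
      have h2 : Pool.Agent.H723R2.LSW.T^[p + k] (Pool.Agent.H723R2.LSW.T n) =
          Pool.Agent.H723R2.LSW.T a := by
        rw [Function.iterate_add_apply, h1, ← Function.iterate_succ_apply,
          Function.iterate_succ_apply', ha]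
      have := hn _ _ (h1.trans h2.symm)
      omega
  obtain ⟨C, hC, he⟩ := Pool.Agent.P8H74.SM.main_int hφ hc B hs
  refine ⟨fun n m _ hnm => by rw [hW, hW, hwild n, hT, (hf n m).1 hnm], C, hC, fun S hS => ?_⟩
  have hinv : ∀ x : ℤ, 0 < s * x → (x ∈ S ↔ Pool.Agent.H499R2.ND.Td 1 x ∈ S) :=
    fun x hx => hS x _ hx ((hf x _).2 rfl)
  obtain ⟨δ, d0, d1, d2, d3, d4⟩ := h0 s hs S hinv
  have hδ : HasDensity s S δ := by
    show Tendsto (fun X : ℝ => Pool.Agent.TH237.RT.ci s S X / X) atTop (𝓝 δ)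
    rw [tendsto_iff_norm_sub_tendsto_zero]
    have hlim : Tendsto (fun X : ℝ => C0 / (Real.log X) ^ (1 / 30 : ℝ)) atTop (𝓝 0) := by
      apply Tendsto.const_div_atTop
      exact (tendsto_rpow_atTop (by norm_num : (0 : ℝ) < 1 / 30)).comp Real.tendsto_log_atTop
    apply squeeze_zero' (Eventually.of_forall fun X => norm_nonneg _) _ hlim
    filter_upwards [eventually_ge_atTop 2] with X hX
    have hX0 : 0 < X := by linarith
    have h1 := d4 X hX
    rw [Real.norm_eq_abs]
    have e : Pool.Agent.TH237.RT.ci s S X / X - δ = (Pool.Agent.TH237.RT.ci s S X - δ * X) / X := by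
      field_simp
    rw [e, abs_div, abs_of_pos hX0, div_le_iff₀ hX0]
    refine h1.trans (le_of_eq (by ring))
  exact ⟨δ, hδ, d0, d1, d2, he S hinv δ hδ⟩

end Pool.Agent.Results.MP_071ec9_an.SmoothCounts
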